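import Mathlib

/-!
# A connected cubic graph with a strict domination chain (MP_93f3b8_co, Q1)

We give an explicit connected cubic graph on 32 vertices with
`ir < γ < i < β₀ < Γ < IR`.  (In it `ir ≤ 8`, `γ = 9`, `i = 10`, `β₀ = 12`, `Γ = 13`, `IR ≥ 14`.)

The upper (lower) bounds are witnessed by explicit sets, the opposite ones by branch-and-bound
searches on bit masks, proved sound here and evaluated by the kernel.
-/

set_option linter.unusedSectionVars false

namespace Pool.Agent.Results.MP_93f3b8_co.StrictChain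

/-! ### The definitions of the problem file -/

section Defs

variable {V : Type*} (G : SimpleGraph V)

/-- `w` lies in the closed neighbourhood `N[v]`. -/
def InClosedNbhd (v w : V) : Prop := w = v ∨ G.Adj v w

/-- `S` is dominating: `N[S] = V`. -/
def IsDominating (S : Finset V) : Prop := ∀ w, ∃ v ∈ S, InClosedNbhd G v w

/-- `S` is a minimal dominating set (minimal under inclusion). -/
def IsMinimalDominating (S : Finset V) : Prop :=
  IsDominating G S ∧ ∀ T : Finset V, T ⊂ S → ¬ IsDominating G T

/-- `S` is independent: no two of its vertices are adjacent. -/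
def IsIndependent (S : Finset V) : Prop := ∀ u ∈ S, ∀ v ∈ S, ¬ G.Adj u v

/-- `S` is a maximal independent set (maximal under inclusion). -/
def IsMaximalIndependent (S : Finset V) : Prop :=
  IsIndependent G S ∧ ∀ T : Finset V, S ⊂ T → ¬ IsIndependent G T

/-- `S` is irredundant: every `v ∈ S` has a private neighbour, i.e. a vertex of `N[v]` that is in
no `N[u]`, `u ∈ S \ {v}`. -/
def IsIrredundant (S : Finset V) : Prop :=
  ∀ v ∈ S, ∃ w, InClosedNbhd G v w ∧ ∀ u ∈ S, u ≠ v → ¬ InClosedNbhd G u w

/-- `S` is a maximal irredundant set (maximal under inclusion). -/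
def IsMaximalIrredundant (S : Finset V) : Prop :=
  IsIrredundant G S ∧ ∀ T : Finset V, S ⊂ T → ¬ IsIrredundant G T

/-- The minimum size of a set with property `P`. -/
noncomputable def minSize (P : Finset V → Prop) : ℕ := sInf {k | ∃ S : Finset V, P S ∧ S.card = k}

/-- The maximum size of a set with property `P`. -/
noncomputable def maxSize (P : Finset V → Prop) : ℕ := sSup {k | ∃ S : Finset V, P S ∧ S.card = k}

/-- `ir(G)`: minimum size of a maximal irredundant set. -/
noncomputable def irNum : ℕ := minSize (IsMaximalIrredundant G)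
/-- `γ(G)`: minimum size of a dominating set. -/
noncomputable def gammaNum : ℕ := minSize (IsDominating G)
/-- `i(G)`: minimum size of a maximal independent set. -/
noncomputable def iNum : ℕ := minSize (IsMaximalIndependent G)
/-- `β₀(G)`: maximum size of an independent set. -/
noncomputable def betaNum : ℕ := maxSize (IsIndependent G)
/-- `Γ(G)`: maximum size of a minimal dominating set. -/
noncomputable def GammaNum : ℕ := maxSize (IsMinimalDominating G)
/-- `IR(G)`: maximum size of an irredundant set. -/
noncomputable def IRNum : ℕ := maxSize (IsIrredundant G)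

end Defs

/-! ### General facts -/

section General

variable {V : Type*} [Fintype V] [DecidableEq V] (G : SimpleGraph V)

lemma minSize_le {P : Finset V → Prop} (S : Finset V) (hS : P S) {k : ℕ} (hk : S.card = k) :
    minSize P ≤ k := Nat.sInf_le ⟨S, hS, hk⟩

lemma le_minSize {P : Finset V → Prop} (S : Finset V) (hS : P S) {k : ℕ}
    (h : ∀ T, P T → k ≤ T.card) : k ≤ minSize P := by
  refine le_csInf ⟨S.card, S, hS, rfl⟩ ?_
  rintro _ ⟨T, hT, rfl⟩
  exact h T hT

lemma bdd (P : Finset V → Prop) : BddAbove {k | ∃ S : Finset V, P S ∧ S.card = k} := by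
  refine ⟨Fintype.card V, ?_⟩
  rintro _ ⟨T, _, rfl⟩
  exact T.card_le_univ

lemma le_maxSize {P : Finset V → Prop} (S : Finset V) (hS : P S) {k : ℕ} (hk : S.card = k) :
    k ≤ maxSize P := le_csSup (bdd P) ⟨S, hS, hk⟩

lemma maxSize_le {P : Finset V → Prop} (S : Finset V) (hS : P S) {k : ℕ}
    (h : ∀ T, P T → T.card ≤ k) : maxSize P ≤ k := by
  refine csSup_le ⟨S.card, S, hS, rfl⟩ ?_
  rintro _ ⟨T, hT, rfl⟩
  exact h T hT

variable {G}

omit [Fintype V] [DecidableEq V] in
lemma IsIrredundant.mono {S T : Finset V} (h : IsIrredundant G T) (hST : S ⊆ T) :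
    IsIrredundant G S := by
  intro v hv
  obtain ⟨w, hw, hw'⟩ := h v (hST hv)
  exact ⟨w, hw, fun u hu huv => hw' u (hST hu) huv⟩

omit [Fintype V] [DecidableEq V] in
lemma IsIndependent.mono {S T : Finset V} (h : IsIndependent G T) (hST : S ⊆ T) :
    IsIndependent G S := fun u hu v hv => h u (hST hu) v (hST hv)

omit [Fintype V] [DecidableEq V] in
lemma IsDominating.mono {S T : Finset V} (h : IsDominating G S) (hST : S ⊆ T) :
    IsDominating G T := by
  intro w
  obtain ⟨v, hv, hvw⟩ := h w
  exact ⟨v, hST hv, hvw⟩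

omit [Fintype V] in
lemma maximal_of_insert {P : Finset V → Prop} (hmono : ∀ S T : Finset V, P T → S ⊆ T → P S)
    {S : Finset V} (hS : P S) (h : ∀ w, w ∉ S → ¬ P (insert w S)) :
    P S ∧ ∀ T : Finset V, S ⊂ T → ¬ P T := by
  refine ⟨hS, fun T hT hPT => ?_⟩
  obtain ⟨w, hwT, hwS⟩ := Finset.exists_of_ssubset hT
  refine h w hwS (hmono _ T hPT ?_)
  intro x hx
  rcases Finset.mem_insert.1 hx with rfl | hx
  · exact hwT
  · exact hT.1 hx

omit [Fintype V] in
lemma minimalDominating_of_erase {S : Finset V} (hS : IsDominating G S)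
    (h : ∀ w ∈ S, ¬ IsDominating G (S.erase w)) : IsMinimalDominating G S := by
  refine ⟨hS, fun T hT hPT => ?_⟩
  obtain ⟨w, hwS, hwT⟩ := Finset.exists_of_ssubset hT
  refine h w hwS (hPT.mono ?_)
  intro x hx
  exact Finset.mem_erase.2 ⟨fun hxw => hwT (hxw ▸ hx), hT.1 hx⟩

omit [Fintype V] in
lemma IsMinimalDominating.irredundant {S : Finset V} (h : IsMinimalDominating G S) :
    IsIrredundant G S := by
  intro v hv
  have h1 := h.2 (S.erase v) (Finset.erase_ssubset hv)
  unfold IsDominating at h1
  push Not at h1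
  obtain ⟨w, hw⟩ := h1
  obtain ⟨u, hu, huw⟩ := h.1 w
  have huv : u = v := by
    by_contra hne
    exact hw u (Finset.mem_erase.2 ⟨hne, hu⟩) huw
  subst huv
  exact ⟨w, huw, fun x hx hxu => hw x (Finset.mem_erase.2 ⟨hxu, hx⟩)⟩

omit [Fintype V] in
lemma IsMaximalIndependent.dominating {S : Finset V} (h : IsMaximalIndependent G S) :
    IsDominating G S := by
  intro w
  by_contra hcon
  push Not at hcon
  have hw : w ∉ S := fun hw => hcon w hw (Or.inl rfl)
  refine h.2 (insert w S) (Finset.ssubset_insert hw) ?_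
  intro u hu v hv huv
  rcases Finset.mem_insert.1 hu with hu1 | hu1
  · rcases Finset.mem_insert.1 hv with hv1 | hv1
    · rw [hu1, hv1] at huv
      exact G.loopless.irrefl _ huv
    · rw [hu1] at huv
      exact hcon v hv1 (Or.inr huv.symm)
  · rcases Finset.mem_insert.1 hv with hv1 | hv1
    · rw [hv1] at huv
      exact hcon u hu1 (Or.inr huv)
    · exact h.1 u hu1 v hv1 huv

end General

/-! ### The graph -/

/-- The closed neighbourhoods, as bit masks. -/
def nbs : List ℕ := [15, 51, 77, 141, 306, 562, 1348, 6280, 1360, 25120, 34112, 198784, 143488,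
  29184, 287232, 361472, 362496, 661504, 376832, 3801088, 14155776, 52953088, 206569472,
  344981504, 1629487104, 3256877056, 1153433600, 943718400, 2558525440, 2835349504, 1191182336,
  2986344448]

/-- The closed neighbourhood mask of `v`. -/
def Nm (v : ℕ) : ℕ := nbs.getD v 0

/-- The 32-vertex cubic graph. -/
def H : SimpleGraph (Fin 32) where
  Adj u v := u ≠ v ∧ (Nm u.val).testBit v.val = true
  symm := ⟨by
    have key : ∀ u v : Fin 32, (u ≠ v ∧ (Nm u.val).testBit v.val = true) →
        (v ≠ u ∧ (Nm v.val).testBit u.val = true) := by decide +kernel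
    exact key⟩
  loopless := ⟨fun u hu => hu.1 rfl⟩

instance : DecidableRel H.Adj := fun u v =>
  inferInstanceAs (Decidable (u ≠ v ∧ (Nm u.val).testBit v.val = true))

instance (v w : Fin 32) : Decidable (InClosedNbhd H v w) :=
  inferInstanceAs (Decidable (w = v ∨ H.Adj v w))
instance (S : Finset (Fin 32)) : Decidable (IsDominating H S) :=
  inferInstanceAs (Decidable (∀ w, ∃ v ∈ S, InClosedNbhd H v w))
instance (S : Finset (Fin 32)) : Decidable (IsIndependent H S) :=
  inferInstanceAs (Decidable (∀ u ∈ S, ∀ v ∈ S, ¬ H.Adj u v))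
instance (S : Finset (Fin 32)) : Decidable (IsIrredundant H S) :=
  inferInstanceAs (Decidable (∀ v ∈ S, ∃ w, InClosedNbhd H v w ∧
    ∀ u ∈ S, u ≠ v → ¬ InClosedNbhd H u w))

lemma closed_iff : ∀ v w : Fin 32, InClosedNbhd H v w ↔ (Nm v.val).testBit w.val = true := by
  decide +kernel

lemma Nm_lt : ∀ v < 32, ∀ w, (Nm v).testBit w = true → w < 32 := by
  intro v hv w hw
  by_contra hcon
  have h1 : ∀ v < 32, Nm v < 2 ^ 32 := by decide +kernel
  have h2 := Nat.testBit_lt_two_pow (lt_of_lt_of_le (h1 v hv)
    (Nat.pow_le_pow_right (by norm_num) (not_lt.1 hcon)))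
  rw [h2] at hw
  exact absurd hw (by simp)

/-! ### Search for large irredundant sets -/

/-- The state after having processed the vertices `< v` of `S`: number of elements, mask of the
covered vertices, mask of the vertices covered exactly once, masks of the chosen vertices. -/
structure Inv (S : Finset ℕ) (v k cov once : ℕ) (st : List ℕ) : Prop where
  hk : k = (S.filter (· < v)).card
  hcov : ∀ w, cov.testBit w = true ↔ ∃ s ∈ S, s < v ∧ (Nm s).testBit w = true
  honce : ∀ w, once.testBit w = true ↔ ∃ s ∈ S, s < v ∧ (Nm s).testBit w = true ∧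
    ∀ t ∈ S, t < v → (Nm t).testBit w = true → t = s
  hst : ∀ m ∈ st, ∃ s ∈ S, s < v ∧ m = Nm s

/-- Branch and bound: `true` means that no admissible set of size at least `tgt` extends the
current state. -/
def srch (ind : Bool) (tgt : ℕ) : List (ℕ × ℕ × ℕ × ℕ) → ℕ → ℕ → ℕ → List ℕ → Bool
  | [], k, _, _, _ => Nat.blt k tgt
  | (v, m, nd, b) :: L, k, cov, once, st =>
    Nat.blt (k + b) tgt || (!(Nat.beq (Nat.land nd cov) nd)) ||
    (srch ind tgt L k cov once st &&
      ((ind && Nat.testBit cov v) ||
       Nat.beq (Nat.land m (Nat.lor (Nat.xor once (Nat.land once m))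
          (Nat.xor m (Nat.land m cov)))) 0 ||
       st.any (fun x => Nat.beq (Nat.land x (Nat.lor (Nat.xor once (Nat.land once m))
          (Nat.xor m (Nat.land m cov)))) 0) ||
       srch ind tgt L (k + 1) (Nat.lor cov m) (Nat.lor (Nat.xor once (Nat.land once m))
          (Nat.xor m (Nat.land m cov))) (m :: st)))

/-- The list of data is correct for `S` from `v` on. -/
def Good (S : Finset ℕ) : ℕ → List (ℕ × ℕ × ℕ × ℕ) → Prop
  | v, [] => ∀ s ∈ S, s < v
  | v, (v', m, nd, b) :: L => v' = v ∧ m = Nm v ∧
      (∀ w, nd.testBit w = true → ∃ s ∈ S, s < v ∧ (Nm s).testBit w = true) ∧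
      (S.filter (v ≤ ·)).card ≤ b ∧ Good S (v + 1) L

lemma inv_skip {S : Finset ℕ} {v k cov once : ℕ} {st : List ℕ} (h : Inv S v k cov once st)
    (hv : v ∉ S) : Inv S (v + 1) k cov once st := by
  have key : ∀ s ∈ S, (s < v + 1 ↔ s < v) := by
    intro s hs
    have : s ≠ v := fun h => hv (h ▸ hs)
    omega
  refine ⟨?_, ?_, ?_, ?_⟩
  · rw [h.hk]
    congr 1
    exact Finset.filter_congr (fun s hs => (key s hs).symm)
  · intro w
    rw [h.hcov]
    exact ⟨fun ⟨s, hs, h1, h2⟩ => ⟨s, hs, (key s hs).2 h1, h2⟩,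
      fun ⟨s, hs, h1, h2⟩ => ⟨s, hs, (key s hs).1 h1, h2⟩⟩
  · intro w
    rw [h.honce]
    exact ⟨fun ⟨s, hs, h1, h2, h3⟩ => ⟨s, hs, (key s hs).2 h1, h2,
        fun t ht h4 => h3 t ht ((key t ht).1 h4)⟩,
      fun ⟨s, hs, h1, h2, h3⟩ => ⟨s, hs, (key s hs).1 h1, h2,
        fun t ht h4 => h3 t ht ((key t ht).2 h4)⟩⟩
  · intro m hm
    obtain ⟨s, hs, h1, h2⟩ := h.hst m hm
    exact ⟨s, hs, (key s hs).2 h1, h2⟩

lemma once_bit (once m cov w : ℕ) :
    (Nat.lor (Nat.xor once (Nat.land once m)) (Nat.xor m (Nat.land m cov))).testBit w =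
      ((once.testBit w && !(m.testBit w)) || (m.testBit w && !(cov.testBit w))) := by
  have : Nat.lor (Nat.xor once (Nat.land once m)) (Nat.xor m (Nat.land m cov)) =
    (once ^^^ (once &&& m)) ||| (m ^^^ (m &&& cov)) := rfl
  rw [this]
  simp only [Nat.testBit_or, Nat.testBit_xor, Nat.testBit_and]
  cases once.testBit w <;> cases m.testBit w <;> cases cov.testBit w <;> rfl

lemma inv_add {S : Finset ℕ} {v k cov once : ℕ} {st : List ℕ} (h : Inv S v k cov once st)
    (hv : v ∈ S) : Inv S (v + 1) (k + 1) (Nat.lor cov (Nm v))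
      (Nat.lor (Nat.xor once (Nat.land once (Nm v))) (Nat.xor (Nm v) (Nat.land (Nm v) cov)))
      (Nm v :: st) := by
  refine ⟨?_, ?_, ?_, ?_⟩
  · have : S.filter (· < v + 1) = insert v (S.filter (· < v)) := by
      ext s
      simp only [Finset.mem_filter, Finset.mem_insert]
      constructor
      · rintro ⟨h1, h2⟩
        by_cases h3 : s = v
        · exact Or.inl h3
        · exact Or.inr ⟨h1, by omega⟩
      · rintro (rfl | ⟨h1, h2⟩)
        · exact ⟨hv, by omega⟩
        · exact ⟨h1, by omega⟩
    rw [this, Finset.card_insert_of_notMem (by simp), h.hk]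
  · intro w
    have : Nat.lor cov (Nm v) = cov ||| Nm v := rfl
    rw [this, Nat.testBit_or, Bool.or_eq_true, h.hcov]
    constructor
    · rintro (⟨s, hs, h1, h2⟩ | h1)
      · exact ⟨s, hs, by omega, h2⟩
      · exact ⟨v, hv, by omega, h1⟩
    · rintro ⟨s, hs, h1, h2⟩
      by_cases h3 : s = v
      · subst h3; exact Or.inr h2
      · exact Or.inl ⟨s, hs, by omega, h2⟩
  · intro w
    rw [once_bit, Bool.or_eq_true, Bool.and_eq_true, Bool.and_eq_true, Bool.not_eq_true',
      Bool.not_eq_true']
    constructor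
    · rintro (⟨h1, h2⟩ | ⟨h1, h2⟩)
      · obtain ⟨s, hs, h3, h4, h5⟩ := (h.honce w).1 h1
        refine ⟨s, hs, by omega, h4, fun t ht h6 h7 => ?_⟩
        by_cases h8 : t = v
        · subst h8; rw [h2] at h7; exact absurd h7 (by simp)
        · exact h5 t ht (by omega) h7
      · refine ⟨v, hv, by omega, h1, fun t ht h6 h7 => ?_⟩
        by_contra h8
        have : cov.testBit w = true := (h.hcov w).2 ⟨t, ht, by omega, h7⟩
        rw [h2] at this
        exact absurd this (by simp)
    · rintro ⟨s, hs, h1, h2, h3⟩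
      by_cases h4 : s = v
      · subst h4
        right
        refine ⟨h2, ?_⟩
        rw [← Bool.not_eq_true, h.hcov]
        rintro ⟨t, ht, h5, h6⟩
        have := h3 t ht (by omega) h6
        omega
      · left
        refine ⟨(h.honce w).2 ⟨s, hs, by omega, h2, fun t ht h5 h6 => h3 t ht (by omega) h6⟩, ?_⟩
        rw [← Bool.not_eq_true]
        intro h5
        exact h4 (h3 v hv (by omega) h5).symm
  · intro m hm
    rcases List.mem_cons.1 hm with rfl | hm
    · exact ⟨v, hv, by omega, rfl⟩
    · obtain ⟨s, hs, h1, h2⟩ := h.hst m hm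
      exact ⟨s, hs, by omega, h2⟩

/-- Irredundance for sets of numbers. -/
def Irr (S : Finset ℕ) : Prop := ∀ v ∈ S, ∃ w, (Nm v).testBit w = true ∧
  ∀ u ∈ S, u ≠ v → ¬ (Nm u).testBit w = true

/-- Independence for sets of numbers. -/
def Ind (S : Finset ℕ) : Prop := ∀ v ∈ S, ∀ u ∈ S, u ≠ v → ¬ (Nm u).testBit v = true

lemma Irr.mono {S T : Finset ℕ} (h : Irr T) (hST : S ⊆ T) : Irr S := by
  intro v hv
  obtain ⟨w, hw, hw'⟩ := h v (hST hv)
  exact ⟨w, hw, fun u hu huv => hw' u (hST hu) huv⟩

lemma Ind.mono {S T : Finset ℕ} (h : Ind T) (hST : S ⊆ T) : Ind S :=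
  fun v hv u hu huv => h v (hST hv) u (hST hu) huv

lemma land_ne_zero_of {a b w : ℕ} (h1 : a.testBit w = true) (h2 : b.testBit w = true) :
    Nat.beq (Nat.land a b) 0 = false := by
  rw [← Bool.not_eq_true]
  intro h
  have h3 : a &&& b = 0 := Nat.eq_of_beq_eq_true h
  have h4 : (a &&& b).testBit w = true := by rw [Nat.testBit_and, h1, h2]; rfl
  rw [h3] at h4
  simp at h4

lemma srch_sound (ind : Bool) (tgt : ℕ) (S : Finset ℕ) (hirr : Irr S)
    (hind : ind = true → Ind S) :
    ∀ (L : List (ℕ × ℕ × ℕ × ℕ)) (v k cov once : ℕ) (st : List ℕ), Good S v L →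
      Inv S v k cov once st → srch ind tgt L k cov once st = true → S.card < tgt := by
  intro L
  induction L with
  | nil =>
    intro v k cov once st hG hI hs
    have hk : k < tgt := Nat.le_of_ble_eq_true hs
    have : S.filter (· < v) = S := Finset.filter_true_of_mem hG
    rw [← this, ← hI.hk]
    exact hk
  | cons d L ih =>
    obtain ⟨v', m, nd, b⟩ := d
    intro v k cov once st hG hI hs
    obtain ⟨rfl, rfl, hnd, hb, hG'⟩ := hG
    unfold srch at hs
    simp only [Bool.or_eq_true, Bool.and_eq_true, Bool.not_eq_true'] at hs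
    rcases hs with (hs | hs) | ⟨hs1, hs2⟩
    · have h1 : k + b < tgt := Nat.le_of_ble_eq_true hs
      have h2 : S.card = (S.filter (· < v')).card + (S.filter (v' ≤ ·)).card := by
        rw [← Finset.card_filter_add_card_filter_not (s := S) (· < v')]
        congr 2
        exact Finset.filter_congr (fun s _ => by simp)
      rw [h2, ← hI.hk]
      omega
    · exfalso
      have h1 : nd &&& cov = nd := by
        apply Nat.eq_of_testBit_eq
        intro w
        rw [Nat.testBit_and]
        cases h2 : nd.testBit w with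
        | false => rfl
        | true =>
          have := (hI.hcov w).2 (hnd w h2)
          rw [this]; rfl
      have h3 : Nat.beq (Nat.land nd cov) nd = true := by
        have : Nat.land nd cov = nd := h1
        rw [this]
        exact Nat.beq_refl nd
      rw [h3] at hs
      exact absurd hs (by simp)
    · by_cases hv : v' ∈ S
      · have hI' := inv_add hI hv
        -- every chosen vertex has a private neighbour
        have hpn : ∀ s ∈ S, s < v' + 1 → Nat.beq (Nat.land (Nm s)
            (Nat.lor (Nat.xor once (Nat.land once (Nm v')))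
              (Nat.xor (Nm v') (Nat.land (Nm v') cov)))) 0 = false := by
          intro s hs hsv
          obtain ⟨w, hw1, hw2⟩ := hirr s hs
          refine land_ne_zero_of hw1 ((hI'.honce w).2 ⟨s, hs, hsv, hw1, fun t ht _ h3 => ?_⟩)
          by_contra hne
          exact hw2 t ht hne h3
        rcases hs2 with ((hs2 | hs2) | hs2) | hs2
        · exfalso
          obtain ⟨s, hs, h1, h2⟩ := (hI.hcov v').1 hs2.2
          exact hind hs2.1 v' hv s hs (by omega) h2
        · exfalso
          rw [hpn v' hv (by omega)] at hs2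
          exact absurd hs2 (by simp)
        · exfalso
          rw [List.any_eq_true] at hs2
          obtain ⟨x, hx, hx'⟩ := hs2
          obtain ⟨s, hs, h1, rfl⟩ := hI.hst x hx
          rw [hpn s hs (by omega)] at hx'
          exact absurd hx' (by simp)
        · exact ih _ _ _ _ _ hG' hI' hs2
      · exact ih _ _ _ _ _ hG' (inv_skip hI hv) hs1

/-- The data list from vertex `v` on. -/
def gen (nd b : ℕ → ℕ) (v n : ℕ) : List (ℕ × ℕ × ℕ × ℕ) :=
  (List.range' v n).map (fun u => (u, Nm u, nd u, b u))

lemma good_gen (S : Finset ℕ) (nd b : ℕ → ℕ) (n : ℕ) : ∀ v, (∀ s ∈ S, s < v + n) →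
    (∀ u, v ≤ u → ∀ w, (nd u).testBit w = true → ∃ s ∈ S, s < u ∧ (Nm s).testBit w = true) →
    (∀ u, v ≤ u → (S.filter (u ≤ ·)).card ≤ b u) → Good S v (gen nd b v n) := by
  induction n with
  | zero => intro v h1 _ _; simpa [gen, Good] using h1
  | succ n ih =>
    intro v h1 h2 h3
    have : gen nd b v (n + 1) = (v, Nm v, nd v, b v) :: gen nd b (v + 1) n := by
      simp [gen, List.range'_succ]
    rw [this]
    refine ⟨rfl, rfl, h2 v le_rfl, h3 v le_rfl, ih (v + 1) ?_ ?_ ?_⟩
    · intro s hs; have := h1 s hs; omega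
    · intro u hu; exact h2 u (by omega)
    · intro u hu; exact h3 u (by omega)

/-- Russian doll bounds: if `b` passes the checks then it bounds the admissible sets contained in
`[u, 32)`. -/
lemma doll (ind : Bool) (b : ℕ → ℕ)
    (hchk : ∀ j < 32, b j = b (j + 1) + 1 ∨ (b j = b (j + 1) ∧
      srch ind (b j + 1) (gen (fun _ => 0) b (j + 1) (31 - j)) 1 (Nm j) (Nm j) [Nm j] = true)) :
    ∀ n u, 32 - n ≤ u → ∀ S : Finset ℕ, (∀ s ∈ S, s < 32) → (∀ s ∈ S, u ≤ s) → Irr S →
      (ind = true → Ind S) → S.card ≤ b u := by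
  intro n
  induction n with
  | zero =>
    intro u hu S h1 h2 _ _
    have : S = ∅ := by
      apply Finset.eq_empty_of_forall_notMem
      intro s hs
      have := h1 s hs
      have := h2 s hs
      omega
    simp [this]
  | succ n ih =>
    intro j hj S h1 h2 hirr hind
    by_cases hcase : 32 - n ≤ j
    · exact ih j hcase S h1 h2 hirr hind
    have hj' : 32 - n = j + 1 := by omega
    have hjlt : j < 32 := by omega
    rw [hj'] at ih
    have hle : b (j + 1) ≤ b j := by
      rcases hchk j hjlt with h | h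
      · omega
      · rw [h.1]
    have hsub : ∀ u, j + 1 ≤ u → (S.filter (u ≤ ·)).card ≤ b u := by
      intro u hu
      refine ih u hu _ ?_ ?_ (hirr.mono (Finset.filter_subset _ _))
        (fun hi => (hind hi).mono (Finset.filter_subset _ _))
      · intro s hs; exact h1 s (Finset.mem_filter.1 hs).1
      · intro s hs; exact (Finset.mem_filter.1 hs).2
    by_cases hjS : j ∈ S
    · have herase : (S.erase j).card ≤ b (j + 1) := by
        refine ih (j + 1) le_rfl _ ?_ ?_ (hirr.mono (Finset.erase_subset _ _))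
          (fun hi => (hind hi).mono (Finset.erase_subset _ _))
        · intro s hs; exact h1 s (Finset.mem_of_mem_erase hs)
        · intro s hs
          have h3 := h2 s (Finset.mem_of_mem_erase hs)
          have h4 := Finset.ne_of_mem_erase hs
          omega
      have hcard : S.card = (S.erase j).card + 1 := (Finset.card_erase_add_one hjS).symm
      rcases hchk j hjlt with h | ⟨h, hs⟩
      · omega
      · have hfil : S.filter (· < j + 1) = {j} := by
          ext s
          simp only [Finset.mem_filter, Finset.mem_singleton]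
          constructor
          · rintro ⟨h3, h4⟩
            have := h2 s h3
            omega
          · rintro rfl
            exact ⟨hjS, by omega⟩
        have hmem : ∀ s ∈ S, s < j + 1 → s = j := by
          intro s hs1 hs2
          have := h2 s hs1
          omega
        have hI : Inv S (j + 1) 1 (Nm j) (Nm j) [Nm j] := by
          refine ⟨by rw [hfil]; simp, ?_, ?_, ?_⟩
          · intro w
            constructor
            · intro hw; exact ⟨j, hjS, by omega, hw⟩
            · rintro ⟨s, hs1, hs2, hs3⟩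
              rw [hmem s hs1 hs2] at hs3
              exact hs3
          · intro w
            constructor
            · intro hw; exact ⟨j, hjS, by omega, hw, fun t ht ht' _ => hmem t ht ht'⟩
            · rintro ⟨s, hs1, hs2, hs3, _⟩
              rw [hmem s hs1 hs2] at hs3
              exact hs3
          · intro m hm
            exact ⟨j, hjS, by omega, by simpa using hm⟩
        have := srch_sound ind (b j + 1) S hirr hind _ (j + 1) 1 (Nm j) (Nm j) [Nm j]
          (good_gen S _ b (31 - j) (j + 1) (by intro s hs; have := h1 s hs; omega)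
            (by intro u _ w hw; simp at hw) hsub) hI hs
        omega
    · refine le_trans (ih (j + 1) le_rfl S h1 ?_ hirr hind) hle
      intro s hs
      have h3 := h2 s hs
      have h4 : s ≠ j := fun h => hjS (h ▸ hs)
      omega

/-- Bounds for irredundant sets. -/
def fb : List ℕ := [14, 14, 14, 14, 14, 14, 14, 13, 12, 11, 11, 10, 10, 10, 10, 10, 9, 8, 8, 7, 6,
  6, 6, 6, 5, 5, 4, 4, 3, 3, 2, 1, 0]
/-- Bounds for independent sets. -/
def gb : List ℕ := [12, 12, 12, 12, 11, 11, 10, 10, 10, 10, 9, 9, 8, 8, 8, 7, 7, 7, 6, 5, 5, 5, 4,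
  4, 4, 4, 3, 3, 3, 2, 2, 1, 0]
/-- Masks of the vertices whose closed neighbourhoods lie in `[0, v)`. -/
def needs : List ℕ := [0, 0, 0, 0, 1, 1, 3, 7, 15, 31, 63, 383, 383, 511, 511, 9215, 10239, 10239,
  16383, 393215, 524287, 524287, 1048575, 1048575, 2097151, 2097151, 4194303, 4194303, 8388607,
  16777215, 150994943, 1308622847]

lemma irr_chk : ∀ j < 32, fb.getD j 0 = fb.getD (j + 1) 0 + 1 ∨
    (fb.getD j 0 = fb.getD (j + 1) 0 ∧
      srch false (fb.getD j 0 + 1) (gen (fun _ => 0) (fun i => fb.getD i 0) (j + 1) (31 - j)) 1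
        (Nm j) (Nm j) [Nm j] = true) := by
  decide +kernel

lemma ind_chk : ∀ j < 32, gb.getD j 0 = gb.getD (j + 1) 0 + 1 ∨
    (gb.getD j 0 = gb.getD (j + 1) 0 ∧
      srch true (gb.getD j 0 + 1) (gen (fun _ => 0) (fun i => gb.getD i 0) (j + 1) (31 - j)) 1
        (Nm j) (Nm j) [Nm j] = true) := by
  decide +kernel

lemma dom_chk : srch false 14 (gen (fun i => needs.getD i 0) (fun i => fb.getD i 0) 0 32)
    0 0 0 [] = true := by
  decide +kernel

/-! ### Search for small dominating sets -/

/-- Number of bits `< 32` of a mask. -/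
def pc (x : ℕ) : ℕ := Nat.count (fun i => x.testBit i = true) 32

/-- The vertices of `[0, 32)` in a mask. -/
def bits (x : ℕ) : List ℕ := (List.range 32).filter (fun i => x.testBit i)

/-- Branch and bound: `true` means that the covered set `cov` cannot be completed to everything by
`fuel` further closed neighbourhoods of vertices outside `forb` (in the mode `ind`, pairwise
non-adjacent and not adjacent to the chosen ones). -/
def dsr (ind : Bool) : ℕ → ℕ → ℕ → Bool
  | 0, cov, _ => !(cov.testBit (Nat.log2 (Nat.xor 4294967295 cov)))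
      && Nat.blt (Nat.log2 (Nat.xor 4294967295 cov)) 32
  | fuel + 1, cov, forb => !(cov.testBit (Nat.log2 (Nat.xor 4294967295 cov)))
      && Nat.blt (Nat.log2 (Nat.xor 4294967295 cov)) 32 &&
      (Nat.blt (4 * (fuel + 1) + pc cov) 32 ||
        (bits (Nm (Nat.log2 (Nat.xor 4294967295 cov)))).all (fun w => forb.testBit w ||
          dsr ind fuel (Nat.lor cov (Nm w)) (if ind then Nat.lor forb (Nm w) else forb)))

lemma dsr_sound (ind : Bool) (S : Finset ℕ) (hS : ∀ s ∈ S, s < 32)
    (hdom : ∀ w < 32, ∃ s ∈ S, (Nm s).testBit w = true) (hind : ind = true → Ind S)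
    (hsymm : ∀ u < 32, ∀ v < 32, (Nm u).testBit v = true → (Nm v).testBit u = true)
    (hcard : ∀ u < 32, pc (Nm u) ≤ 4) :
    ∀ (fuel cov forb : ℕ) (T : Finset ℕ), T ⊆ S → (S \ T).card ≤ fuel →
      (∀ w, cov.testBit w = true ↔ ∃ s ∈ T, (Nm s).testBit w = true) →
      (∀ w ∈ S, forb.testBit w = true → w ∈ T) → dsr ind fuel cov forb = true → False := by
  intro fuel
  induction fuel with
  | zero =>
    intro cov forb T hT hc hcov hforb hs
    unfold dsr at hs
    simp only [Bool.and_eq_true, Bool.not_eq_true'] at hs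
    obtain ⟨h1, h2⟩ := hs
    have h2' : Nat.log2 (Nat.xor 4294967295 cov) < 32 := Nat.le_of_ble_eq_true h2
    obtain ⟨s, hs, hsw⟩ := hdom _ h2'
    have hsT : s ∈ T := by
      by_contra hsT
      have : 0 < (S \ T).card := Finset.card_pos.2 ⟨s, Finset.mem_sdiff.2 ⟨hs, hsT⟩⟩
      omega
    rw [(hcov _).2 ⟨s, hsT, hsw⟩] at h1
    exact absurd h1 (by simp)
  | succ fuel ih =>
    intro cov forb T hT hc hcov hforb hs
    unfold dsr at hs
    simp only [Bool.and_eq_true, Bool.not_eq_true', Bool.or_eq_true] at hs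
    obtain ⟨⟨h1, h2⟩, h3⟩ := hs
    have h2' : Nat.log2 (Nat.xor 4294967295 cov) < 32 := Nat.le_of_ble_eq_true h2
    set u := Nat.log2 (Nat.xor 4294967295 cov) with hu
    rcases h3 with h3 | h3
    · -- counting
      have h3' : 4 * (fuel + 1) + pc cov < 32 := Nat.le_of_ble_eq_true h3
      have h4 : (Finset.range 32) ⊆ ((Finset.range 32).filter (fun i => cov.testBit i = true)) ∪
          (S \ T).biUnion (fun s => (Finset.range 32).filter (fun i => (Nm s).testBit i = true)) := by
        intro w hw
        have hw' := Finset.mem_range.1 hw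
        obtain ⟨s, hs, hsw⟩ := hdom w hw'
        by_cases hsT : s ∈ T
        · exact Finset.mem_union_left _ (Finset.mem_filter.2 ⟨hw, (hcov w).2 ⟨s, hsT, hsw⟩⟩)
        · refine Finset.mem_union_right _ (Finset.mem_biUnion.2 ⟨s, Finset.mem_sdiff.2 ⟨hs, hsT⟩,
            Finset.mem_filter.2 ⟨hw, hsw⟩⟩)
      have h5 := Finset.card_le_card h4
      have h6 := Finset.card_union_le ((Finset.range 32).filter (fun i => cov.testBit i = true))
        ((S \ T).biUnion (fun s => (Finset.range 32).filter (fun i => (Nm s).testBit i = true)))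
      have h7 : ((S \ T).biUnion (fun s => (Finset.range 32).filter
          (fun i => (Nm s).testBit i = true))).card ≤ (S \ T).card * 4 := by
        refine Finset.card_biUnion_le_card_mul _ _ _ ?_
        intro s hs
        rw [← Nat.count_eq_card_filter_range]
        exact hcard s (hS s (Finset.mem_sdiff.1 hs).1)
      have h8 : ((Finset.range 32).filter (fun i => cov.testBit i = true)).card = pc cov := by
        rw [← Nat.count_eq_card_filter_range]; rfl
      rw [Finset.card_range] at h5
      rw [h8] at h6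
      omega
    · rw [List.all_eq_true] at h3
      obtain ⟨s, hs, hsu⟩ := hdom u h2'
      have hsT : s ∉ T := by
        intro hsT
        rw [(hcov _).2 ⟨s, hsT, hsu⟩] at h1
        exact absurd h1 (by simp)
      have h4 := h3 s (List.mem_filter.2 ⟨List.mem_range.2 (hS s hs),
        hsymm s (hS s hs) u h2' hsu⟩)
      rw [Bool.or_eq_true] at h4
      rcases h4 with h4 | h4
      · exact hsT (hforb s hs h4)
      · refine ih _ _ (insert s T) (Finset.insert_subset hs hT) ?_ ?_ ?_ h4
        · have : S \ insert s T = (S \ T).erase s := by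
            ext x
            simp only [Finset.mem_sdiff, Finset.mem_insert, Finset.mem_erase]
            tauto
          rw [this, Finset.card_erase_of_mem (Finset.mem_sdiff.2 ⟨hs, hsT⟩)]
          omega
        · intro w
          have : Nat.lor cov (Nm s) = cov ||| Nm s := rfl
          rw [this, Nat.testBit_or, Bool.or_eq_true, hcov]
          constructor
          · rintro (⟨t, ht, htw⟩ | h)
            · exact ⟨t, Finset.mem_insert_of_mem ht, htw⟩
            · exact ⟨s, Finset.mem_insert_self _ _, h⟩
          · rintro ⟨t, ht, htw⟩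
            rcases Finset.mem_insert.1 ht with h | h
            · rw [h] at htw; exact Or.inr htw
            · exact Or.inl ⟨t, h, htw⟩
        · intro w hw hwf
          by_cases hi : ind = true
          · rw [if_pos hi] at hwf
            have : Nat.lor forb (Nm s) = forb ||| Nm s := rfl
            rw [this, Nat.testBit_or, Bool.or_eq_true] at hwf
            rcases hwf with h | h
            · exact Finset.mem_insert_of_mem (hforb w hw h)
            · by_cases hws : w = s
              · rw [hws]; exact Finset.mem_insert_self _ _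
              · exact absurd h (hind hi w hw s hs (fun h => hws h.symm))
          · rw [if_neg hi] at hwf
            exact Finset.mem_insert_of_mem (hforb w hw hwf)

lemma nm_symm : ∀ u < 32, ∀ v < 32, (Nm u).testBit v = true → (Nm v).testBit u = true := by
  decide +kernel

lemma nm_card : ∀ u < 32, pc (Nm u) ≤ 4 := by decide +kernel

lemma nm_self : ∀ u < 32, (Nm u).testBit u = true := by decide +kernel

lemma gamma_chk : dsr false 8 0 0 = true := by decide +kernel

lemma i_chk : dsr true 9 0 0 = true := by decide +kernel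

/-! ### Transfer to the graph -/

/-- A vertex set as a set of numbers. -/
def num (S : Finset (Fin 32)) : Finset ℕ := S.map Fin.valEmbedding

lemma mem_num {S : Finset (Fin 32)} {s : ℕ} : s ∈ num S ↔ ∃ v ∈ S, v.val = s := by
  simp [num]

lemma card_num (S : Finset (Fin 32)) : (num S).card = S.card := Finset.card_map _

lemma num_lt (S : Finset (Fin 32)) : ∀ s ∈ num S, s < 32 := by
  intro s hs
  obtain ⟨v, _, rfl⟩ := mem_num.1 hs
  exact v.isLt

lemma irr_num {S : Finset (Fin 32)} (h : IsIrredundant H S) : Irr (num S) := by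
  intro s hs
  obtain ⟨v, hv, rfl⟩ := mem_num.1 hs
  obtain ⟨w, hw, hw'⟩ := h v hv
  refine ⟨w.val, (closed_iff v w).1 hw, ?_⟩
  intro t ht htv
  obtain ⟨u, hu, rfl⟩ := mem_num.1 ht
  intro hcon
  exact hw' u hu (fun h => htv (by rw [h])) ((closed_iff u w).2 hcon)

lemma ind_num {S : Finset (Fin 32)} (h : IsIndependent H S) : Ind (num S) := by
  intro s hs t ht hts
  obtain ⟨v, hv, rfl⟩ := mem_num.1 hs
  obtain ⟨u, hu, rfl⟩ := mem_num.1 ht
  intro hcon
  rcases (closed_iff u v).2 hcon with h1 | h1
  · exact hts (by rw [h1])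
  · exact h u hu v hv h1

lemma ind_irr {S : Finset ℕ} (hS : ∀ s ∈ S, s < 32) (h : Ind S) : Irr S :=
  fun v hv => ⟨v, nm_self v (hS v hv), fun u hu huv => h v hv u hu huv⟩

lemma dom_num {S : Finset (Fin 32)} (h : IsDominating H S) :
    ∀ w < 32, ∃ s ∈ num S, (Nm s).testBit w = true := by
  intro w hw
  obtain ⟨v, hv, hvw⟩ := h ⟨w, hw⟩
  exact ⟨v.val, mem_num.2 ⟨v, hv, rfl⟩, (closed_iff v ⟨w, hw⟩).1 hvw⟩

theorem gamma_ge (S : Finset (Fin 32)) (h : IsDominating H S) : 9 ≤ S.card := by
  by_contra hcon
  refine dsr_sound false (num S) (num_lt S) (dom_num h) (by simp) nm_symm nm_card 8 0 0 ∅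
    (Finset.empty_subset _) ?_ ?_ ?_ gamma_chk
  · rw [Finset.sdiff_empty, card_num]; omega
  · intro w; simp
  · intro w _ hw; simp at hw

theorem i_ge (S : Finset (Fin 32)) (h : IsDominating H S) (h' : IsIndependent H S) :
    10 ≤ S.card := by
  by_contra hcon
  refine dsr_sound true (num S) (num_lt S) (dom_num h) (fun _ => ind_num h') nm_symm nm_card 9 0 0 ∅
    (Finset.empty_subset _) ?_ ?_ ?_ i_chk
  · rw [Finset.sdiff_empty, card_num]; omega
  · intro w; simp
  · intro w _ hw; simp at hw

theorem beta_le (S : Finset (Fin 32)) (h : IsIndependent H S) : S.card ≤ 12 := by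
  have := doll true (fun i => gb.getD i 0) ind_chk 32 0 (by omega) (num S) (num_lt S)
    (by intro s _; omega) (ind_irr (num_lt S) (ind_num h)) (fun _ => ind_num h)
  rw [card_num] at this
  exact this

lemma needs_ok : ∀ u < 32, ∀ w < 32, (needs.getD u 0).testBit w = true →
    ∀ s < 32, (Nm s).testBit w = true → s < u := by
  decide +kernel

lemma needs_lt : ∀ u < 32, needs.getD u 0 < 2 ^ 32 := by decide +kernel

theorem Gamma_le (S : Finset (Fin 32)) (h : IsMinimalDominating H S) : S.card ≤ 13 := by
  have hirr := irr_num h.irredundant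
  have hdom := dom_num h.1
  have hb : ∀ u, 0 ≤ u → ((num S).filter (u ≤ ·)).card ≤ fb.getD u 0 := by
    intro u _
    refine doll false (fun i => fb.getD i 0) irr_chk 32 u (by omega) _ ?_ ?_
      (hirr.mono (Finset.filter_subset _ _)) (by simp)
    · intro s hs; exact num_lt S s (Finset.mem_filter.1 hs).1
    · intro s hs; exact (Finset.mem_filter.1 hs).2
  have := srch_sound false 14 (num S) hirr (by simp) _ 0 0 0 0 []
    (good_gen (num S) (fun i => needs.getD i 0) (fun i => fb.getD i 0) 32 0
      (by intro s hs; have := num_lt S s hs; omega) ?_ hb) ?_ dom_chk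
  · rw [card_num] at this; omega
  · intro u _ w hw
    have hu : u < 32 := by
      by_contra hu
      have : needs.getD u 0 = 0 := by
        rw [List.getD_eq_getElem?_getD, List.getElem?_eq_none (by simp [needs]; omega)]
        rfl
      simp only [this] at hw
      simp at hw
    have hw32 : w < 32 := by
      by_contra hcon
      have h2 := Nat.testBit_lt_two_pow (lt_of_lt_of_le (needs_lt u hu)
        (Nat.pow_le_pow_right (by norm_num) (not_lt.1 hcon)))
      rw [h2] at hw
      exact absurd hw (by simp)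
    obtain ⟨s, hs, hsw⟩ := hdom w hw32
    exact ⟨s, hs, needs_ok u hu w hw32 hw s (num_lt S s hs) hsw, hsw⟩
  · refine ⟨by simp, ?_, ?_, by simp⟩
    · intro w; simp
    · intro w; simp

/-! ### Witnesses -/

lemma connected_H : H.Connected := by
  have key : ∀ v : Fin 32, v = 0 ∨ ∃ u : Fin 32, u < v ∧ H.Adj u v := by decide +kernel
  have : ∀ n, ∀ v : Fin 32, v.val = n → H.Reachable 0 v := by
    intro n
    induction n using Nat.strong_induction_on with
    | _ n ih =>
      intro v hv
      rcases key v with h | ⟨u, hu, huv⟩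
      · rw [h]
      · exact (ih u.val (by rw [← hv]; exact hu) u rfl).trans huv.reachable
  exact ⟨fun u v => (this _ u rfl).symm.trans (this _ v rfl)⟩

lemma cubic_H (v : Fin 32) : (H.neighborSet v).ncard = 3 := by
  have key : ∀ v : Fin 32, (Finset.univ.filter (fun w => H.Adj v w)).card = 3 := by decide +kernel
  have : H.neighborSet v = ↑(Finset.univ.filter (fun w => H.Adj v w)) := by
    ext w; simp
  rw [this, Set.ncard_coe_finset, key]

lemma ir_wit : IsIrredundant H {0, 2, 11, 12, 17, 22, 23, 26} ∧
    ∀ w : Fin 32, w ∉ ({0, 2, 11, 12, 17, 22, 23, 26} : Finset (Fin 32)) →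
      ¬ IsIrredundant H (insert w {0, 2, 11, 12, 17, 22, 23, 26}) := by
  decide +kernel

lemma gamma_wit : IsDominating H {0, 7, 8, 9, 15, 19, 26, 29, 31} := by decide +kernel

lemma i_wit : IsIndependent H {0, 7, 8, 9, 15, 17, 22, 23, 24, 25} ∧
    ∀ w : Fin 32, w ∉ ({0, 7, 8, 9, 15, 17, 22, 23, 24, 25} : Finset (Fin 32)) →
      ¬ IsIndependent H (insert w {0, 7, 8, 9, 15, 17, 22, 23, 24, 25}) := by
  decide +kernel

lemma beta_wit : IsIndependent H {0, 4, 6, 7, 9, 15, 17, 20, 21, 26, 27, 31} := by decide +kernel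

lemma Gamma_wit : IsDominating H {0, 1, 6, 9, 11, 12, 15, 20, 21, 22, 24, 27, 29} ∧
    ∀ w ∈ ({0, 1, 6, 9, 11, 12, 15, 20, 21, 22, 24, 27, 29} : Finset (Fin 32)),
      ¬ IsDominating H (({0, 1, 6, 9, 11, 12, 15, 20, 21, 22, 24, 27, 29} :
        Finset (Fin 32)).erase w) := by
  decide +kernel

lemma IR_wit : IsIrredundant H {0, 2, 3, 9, 13, 15, 16, 19, 20, 21, 22, 24, 27, 29} := by
  decide +kernel

/-- **Answer to Q1**: there is a (connected) cubic graph, on 32 vertices, with
`ir < γ < i < β₀ < Γ < IR`. -/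
theorem result : ∃ G : SimpleGraph (Fin 32), G.Connected ∧ (∀ v, (G.neighborSet v).ncard = 3) ∧
    irNum G < gammaNum G ∧ gammaNum G < iNum G ∧ iNum G < betaNum G ∧ betaNum G < GammaNum G ∧
    GammaNum G < IRNum G := by
  have hir := maximal_of_insert (P := IsIrredundant H) (fun S T h hST => h.mono hST)
    ir_wit.1 ir_wit.2
  have hi : IsMaximalIndependent H {0, 7, 8, 9, 15, 17, 22, 23, 24, 25} :=
    maximal_of_insert (P := IsIndependent H) (fun S T h hST => h.mono hST)
    i_wit.1 i_wit.2
  have hG := minimalDominating_of_erase Gamma_wit.1 Gamma_wit.2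
  have h1 : irNum H ≤ 8 := minSize_le _ hir (by decide)
  have h2 : 9 ≤ gammaNum H := le_minSize _ gamma_wit gamma_ge
  have h3 : gammaNum H ≤ 9 := minSize_le _ gamma_wit (by decide)
  have h4 : 10 ≤ iNum H := le_minSize _ hi (fun T hT => i_ge T hT.dominating hT.1)
  have h5 : iNum H ≤ 10 := minSize_le _ hi (by decide)
  have h6 : 12 ≤ betaNum H := le_maxSize _ beta_wit (by decide)
  have h7 : betaNum H ≤ 12 := maxSize_le _ beta_wit beta_le
  have h8 : 13 ≤ GammaNum H := le_maxSize _ hG (by decide)
  have h9 : GammaNum H ≤ 13 := maxSize_le _ hG Gamma_le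
  have h10 : 14 ≤ IRNum H := le_maxSize _ IR_wit (by decide)
  exact ⟨H, connected_H, cubic_H, by omega, by omega, by omega, by omega, by omega⟩

end Pool.Agent.Results.MP_93f3b8_co.StrictChain
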